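import Pool.Agent.Helper18.RD.Stmts

/-! Project RD, row PL: most primes up to `P` divide `q`. -/

set_option autoImplicit false

namespace Pool.Agent.Helper18.RD

open Finset

lemma pl_pi (n : ℕ) (hn : 3 ≤ n) :
    (n : ℝ) / (10 * Real.log n) ≤ (Nat.primeCounting n : ℝ) := by
  have hn' : (3 : ℝ) ≤ n := by exact_mod_cast hn
  have hl : 0 < Real.log n := Real.log_pos (by linarith)
  have h := Chebyshev.pi_ge n
  refine le_trans ?_ h
  have h1 : Real.log ((n : ℝ) + 1) ≤ 2 * Real.log 2 + ((n : ℝ) - 3) / 4 := by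
    have h2 : Real.log (((n : ℝ) + 1) / 4) ≤ ((n : ℝ) + 1) / 4 - 1 :=
      Real.log_le_sub_one_of_pos (by positivity)
    have h3 : Real.log (((n : ℝ) + 1) / 4) = Real.log ((n : ℝ) + 1) - Real.log 4 :=
      Real.log_div (by positivity) (by norm_num)
    have h4 : Real.log 4 = 2 * Real.log 2 := by
      rw [show (4 : ℝ) = 2 ^ 2 by norm_num, Real.log_pow]; norm_num
    rw [h3, h4] at h2
    linarith
  have h5 : (0.6931471803 : ℝ) < Real.log 2 := Real.log_two_gt_d9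
  rw [show (n : ℝ) / (10 * Real.log n) = ((n : ℝ) / 10) / Real.log n by
    rw [div_div]]
  apply div_le_div_of_nonneg_right _ hl.le
  nlinarith

lemma pl_cover (q P : ℕ) (hq : 1 ≤ q) :
    Nat.primeCounting P ≤ 1 + (PP q P).card +
      ((Icc 1 P).filter (fun p => p.Prime ∧ p ≠ 2 ∧ ¬ p ∣ q)).card := by
  classical
  have h1 : Nat.primeCounting P = ((range (P + 1)).filter Nat.Prime).card := by
    rw [Nat.primeCounting, Nat.primeCounting', Nat.count_eq_card_filter_range]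
  rw [h1]
  have hsub : (range (P + 1)).filter Nat.Prime ⊆ ({2} ∪ PP q P) ∪
      (Icc 1 P).filter (fun p => p.Prime ∧ p ≠ 2 ∧ ¬ p ∣ q) := by
    intro p hp
    rw [mem_filter, mem_range] at hp
    obtain ⟨hp1, hp2⟩ := hp
    rw [mem_union, mem_union, mem_singleton]
    by_cases h2 : p = 2
    · exact Or.inl (Or.inl h2)
    by_cases hd : p ∣ q
    · refine Or.inl (Or.inr ?_)
      rw [PP, mem_filter, OP, mem_erase, Nat.mem_primeFactors]
      exact ⟨⟨h2, hp2, hd, by omega⟩, by omega⟩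
    · refine Or.inr ?_
      rw [mem_filter, mem_Icc]
      exact ⟨⟨hp2.one_lt.le, by omega⟩, hp2, h2, hd⟩
  refine le_trans (card_le_card hsub) (le_trans (card_union_le _ _) ?_)
  have h3 := card_union_le ({2} : Finset ℕ) (PP q P)
  rw [card_singleton] at h3
  omega

theorem st_PL (hSV : ST_SV) : ST_PL := by
  obtain ⟨C1, hC1, hsv⟩ := hSV
  refine ⟨1 / 40, by norm_num, fun ε hε => ?_⟩
  refine ⟨max 3 (80 * C1 * (1 + 1 / ε)), lt_of_lt_of_le (by norm_num) (le_max_left _ _), ?_⟩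
  intro N q a P hN hq hcop hNP hPN hS
  set C : ℝ := max 3 (80 * C1 * (1 + 1 / ε)) with hC
  have hC3 : (3 : ℝ) ≤ C := le_max_left _ _
  have hC4 : 80 * C1 * (1 + 1 / ε) ≤ C := le_max_right _ _
  have hNr : (1 : ℝ) ≤ N := by exact_mod_cast hN
  have hNP' : (N : ℝ) ≤ (P : ℝ) ^ 2 := by exact_mod_cast hNP
  have hPN' : (P : ℝ) ≤ N := by exact_mod_cast hPN
  have hP0 : 1 ≤ P := by
    rcases Nat.eq_zero_or_pos P with h | h
    · subst h; simp at hNP; omega
    · exact h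
  have hP0' : (1 : ℝ) ≤ P := by exact_mod_cast hP0
  have hcard : ((SS N q a).card : ℝ) ≤ N := by
    have : (SS N q a).card ≤ N := by
      refine le_trans (card_filter_le _ _) ?_
      rw [card_range]
    exact_mod_cast this
  have hNe : (1 : ℝ) ≤ (N : ℝ) ^ ε := Real.one_le_rpow hNr hε.le
  have hP3' : (3 : ℝ) ≤ P := by
    have h1 : 3 * (P : ℝ) ≤ C * (N : ℝ) ^ ε * P := by
      apply mul_le_mul_of_nonneg_right _ (by linarith)
      nlinarith
    have h2 : 3 * (P : ℝ) ≤ (P : ℝ) ^ 2 := le_trans h1 (le_trans hS (le_trans hcard hNP'))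
    nlinarith
  have hP3 : 3 ≤ P := by exact_mod_cast hP3'
  set A : ℕ := ((Icc 1 P).filter (fun p => p.Prime ∧ p ≠ 2 ∧ ¬ p ∣ q)).card with hA
  have hsv1 : (A : ℝ) * (SS N q a).card ≤ C1 * ((N : ℝ) + (P : ℝ) ^ 2) :=
    hsv N q a P hN hP0 hcop
  have hA0 : (0 : ℝ) ≤ A := Nat.cast_nonneg _
  have h1 : (A : ℝ) * (C * (N : ℝ) ^ ε * P) ≤ 2 * C1 * (P : ℝ) ^ 2 := by
    refine le_trans (mul_le_mul_of_nonneg_left hS hA0) (le_trans hsv1 ?_)
    nlinarith
  have hPpos : (0 : ℝ) < P := by linarith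
  have h2 : (A : ℝ) * (C * (N : ℝ) ^ ε) ≤ 2 * C1 * P := by
    have : ((A : ℝ) * (C * (N : ℝ) ^ ε)) * P ≤ (2 * C1 * P) * P := by
      calc ((A : ℝ) * (C * (N : ℝ) ^ ε)) * P = (A : ℝ) * (C * (N : ℝ) ^ ε * P) := by ring
        _ ≤ 2 * C1 * (P : ℝ) ^ 2 := h1
        _ = (2 * C1 * P) * P := by ring
    exact le_of_mul_le_mul_right this hPpos
  have hlogN : 0 ≤ Real.log N := Real.log_nonneg hNr
  have hlog : 1 + Real.log N ≤ (1 + 1 / ε) * (N : ℝ) ^ ε := by
    have h3 : Real.log N ≤ (N : ℝ) ^ ε / ε := Real.log_le_rpow_div (by linarith) hε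
    have h4 : (1 + 1 / ε) * (N : ℝ) ^ ε = (N : ℝ) ^ ε + (N : ℝ) ^ ε / ε := by ring
    rw [h4]; linarith
  have hE : (0 : ℝ) < 1 + 1 / ε := by positivity
  have h5 : (A : ℝ) * (1 + Real.log N) ≤ (P : ℝ) / 40 := by
    have h6 : (A : ℝ) * (1 + Real.log N) ≤ (A : ℝ) * ((1 + 1 / ε) * (N : ℝ) ^ ε) :=
      mul_le_mul_of_nonneg_left hlog hA0
    have h7 : 80 * C1 * ((A : ℝ) * ((1 + 1 / ε) * (N : ℝ) ^ ε)) ≤ 2 * C1 * P := by
      calc 80 * C1 * ((A : ℝ) * ((1 + 1 / ε) * (N : ℝ) ^ ε))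
          = (A : ℝ) * ((80 * C1 * (1 + 1 / ε)) * (N : ℝ) ^ ε) := by ring
        _ ≤ (A : ℝ) * (C * (N : ℝ) ^ ε) := by
            apply mul_le_mul_of_nonneg_left _ hA0
            apply mul_le_mul_of_nonneg_right hC4 (by linarith)
        _ ≤ 2 * C1 * P := h2
    have h8 : (A : ℝ) * ((1 + 1 / ε) * (N : ℝ) ^ ε) ≤ (P : ℝ) / 40 := by
      have : C1 * (40 * ((A : ℝ) * ((1 + 1 / ε) * (N : ℝ) ^ ε))) ≤ C1 * P := by linarith
      have := le_of_mul_le_mul_left this hC1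
      linarith
    linarith
  have hcov := pl_cover q P hq
  rw [← hA] at hcov
  have hcov' : (Nat.primeCounting P : ℝ) ≤ 1 + (PP q P).card + A := by exact_mod_cast hcov
  have hpi2 : (2 : ℝ) ≤ Nat.primeCounting P := by
    have h9 : Nat.primeCounting 3 ≤ Nat.primeCounting P := Nat.monotone_primeCounting hP3
    have h10 : Nat.primeCounting 3 = 2 := by decide
    rw [h10] at h9
    exact_mod_cast h9
  have hpi := pl_pi P hP3
  have hlogP : 0 < Real.log P := Real.log_pos (by linarith)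
  have hlogPN : Real.log P ≤ 1 + Real.log N := by
    have := Real.log_le_log hPpos hPN'
    linarith
  have hL : (0 : ℝ) < 1 + Real.log N := by linarith
  have h11 : (P : ℝ) / (10 * (1 + Real.log N)) ≤ Nat.primeCounting P := by
    refine le_trans ?_ hpi
    apply div_le_div_of_nonneg_left hPpos.le (by positivity)
    linarith
  have h12 : (A : ℝ) ≤ (P : ℝ) / 40 / (1 + Real.log N) := by
    rw [le_div_iff₀ hL]; exact h5
  have h13 : (P : ℝ) / (10 * (1 + Real.log N)) = 4 * ((P : ℝ) / 40 / (1 + Real.log N)) := by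
    field_simp; ring
  have h14 : 1 / 40 * (P : ℝ) / (1 + Real.log N) = (P : ℝ) / 40 / (1 + Real.log N) := by ring
  rw [h14]
  rw [h13] at h11
  linarith

end Pool.Agent.Helper18.RD
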