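import Pool.Agent.Helper18.RD.Stmts6

/-! Project RD, eighth form (rd8): `#S ≤ C N^ε (√N + (log q)^(1/4))` for all `q`. -/

set_option autoImplicit false

namespace Pool.Agent.Helper19.RD

open Finset Pool.Agent.Helper18.RD

/-- all data with the roots -/
structure DatR (N q a : ℕ) (S : Finset ℕ) (e c d : ℕ → ℕ → ℤ) (k : ℤ) (w : ℝ) (m : ℕ → ℤ) :
    Prop where
  sub : S ⊆ SS N q a
  dat : Dat N q S e c d k w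
  datN : DatN q S d m
  sq : ∀ n ∈ S, m n ^ 2 = (q : ℤ) * n + a
  pos : ∀ n ∈ S, ∀ n' ∈ S, n ≠ n' → 1 ≤ d n n'
  dv : ∀ n ∈ S, ∀ n' ∈ S, n ≠ n' → ∃ v : ℕ, v ∣ q ∧ (v : ℤ) * d n n' = m n + m n'
  sg : ∃ b, IsSquare (q * b + a) ∧ (∀ n l, e n l = sg q a b n l) ∧
    ∀ n ∈ S, (EE q : ℤ) ∣ (mm q a n : ℤ) - mm q a b

/-- ARR: all data exist on at least half of the points (copy of ARN; base point `b ∈ S`). -/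
def ST_ARR : Prop := ∀ N q a : ℕ, 1 ≤ N → 1 ≤ q → Nat.Coprime q a → (SS N q a).Nonempty →
  ∃ (S : Finset ℕ) (e c d : ℕ → ℕ → ℤ) (k : ℤ) (w : ℝ) (m : ℕ → ℤ),
    (SS N q a).card ≤ 2 * S.card ∧ DatR N q a S e c d k w m

/-- UNS (helper83): fourth moment of the signs. -/
def ST_UNS : Prop := ∃ C : ℝ, 0 < C ∧ ∀ (N q a : ℕ) (S J : Finset ℕ) (e c d : ℕ → ℕ → ℤ)
  (k : ℤ) (w : ℝ) (m : ℕ → ℤ), 1 ≤ N → 1 ≤ q → Nat.Coprime q a → N ≤ q →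
  DatR N q a S e c d k w m → J ⊆ S →
  ∑ p ∈ OP q, wt q p * (∑ n ∈ J, (e n p : ℝ)) ^ 4 ≤
    C * ((J.card : ℝ) ^ 2 * Real.log q +
      (J.card : ℝ) ^ 4 * Real.sqrt (Real.log q * (1 + Real.log N)))

/-- NPB: few primes up to `y` do not divide `q` (from ARN, BADN, GT6, MLW6, END2, PL2; compare DPN
and MAIN6; `P = ⌈√N⌉`, `D = (1 + log N) / c0`, constant `K`). -/
def ST_NPB : Prop := ∃ C κ : ℝ, 0 < C ∧ 0 < κ ∧ ∀ N q a y : ℕ, 1 ≤ N → 1 ≤ q → 1 ≤ y →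
  Nat.Coprime q a → C * (1 + Real.log N) ^ κ * (Real.sqrt N + y) ≤ (SS N q a).card →
  ((NP q y).card : ℝ) ^ 2 ≤ C * (1 + Real.log N) ^ κ * y

/-- EXT: extremal class. `J0 = {n ∈ S : n ≡ r mod g}` with `|J0| g ^ γ` maximal, then one sign
class modulo the primes of `g`. -/
def ST_EXT : Prop := ∀ γ θ : ℝ, 0 < γ → γ ≤ 1 / 10 → 0 < θ → ∃ C : ℝ, 0 < C ∧
  ∀ (N q a : ℕ) (S : Finset ℕ) (e c d : ℕ → ℕ → ℤ) (k : ℤ) (w : ℝ) (m : ℕ → ℤ), 1 ≤ N →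
  1 ≤ q → Nat.Coprime q a → DatR N q a S e c d k w m → S.Nonempty →
  ∃ J : Finset ℕ, J ⊆ S ∧ J.Nonempty ∧ ∃ b : ℕ → ℕ,
    (S.card : ℝ) ≤ C * (N : ℝ) ^ (γ + θ) * J.card ∧
    ∀ i ∈ J, ∀ h : ℕ, Squarefree h → Odd h →
      ((J.filter (fun j => i ≠ j ∧ ∀ p ∈ h.primeFactors,
        (d i j).natAbs.factorization p ≠ b p)).card : ℝ) ≤
          C * (N : ℝ) ^ θ * (h : ℝ) ^ (-γ) * J.card

/-- product of the odd primes with odd exponent in `Y` -/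
def osf (Y : ℤ) : ℕ :=
  ∏ p ∈ Y.natAbs.primeFactors.filter (fun p => p ≠ 2 ∧ Odd (Y.natAbs.factorization p)), p

/-- WE: few 4-cycles in one square class with large squarefree part. -/
def ST_WE : Prop := ∀ γ : ℝ, 0 < γ → ∃ C : ℝ, 0 < C ∧ ∀ (J : Finset ℕ) (d : ℕ → ℕ → ℤ)
  (b : ℕ → ℕ) (R : ℝ) (Y0 : ℤ), 0 ≤ R → 1 ≤ Y0 →
  (∀ i ∈ J, ∀ j ∈ J, i ≠ j → 1 ≤ d i j) →
  (∀ i ∈ J, ∀ h : ℕ, Squarefree h → Odd h →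
      ((J.filter (fun j => i ≠ j ∧ ∀ p ∈ h.primeFactors,
        (d i j).natAbs.factorization p ≠ b p)).card : ℝ) ≤ R * (h : ℝ) ^ (-γ)) →
  (((T4 J).filter (fun t => IsSquare (cyc d t * Y0))).card : ℝ) ≤
    C * R * (J.card : ℝ) ^ 3 * (osf Y0 : ℝ) ^ (-(γ / 8))

/-- EXC: a nonsquare `e < √x` has enough primes up to `x` with symbol different from `1`
(Legendre sieve by the primes up to `z`, PER, Rankin with exponent `1 / log z`; the number of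
primes up to `x` is at least `c x / log x`). -/
def ST_EXC : Prop := ∃ (c : ℝ) (x0 : ℕ), 0 < c ∧ ∀ e x z : ℕ, 1 ≤ e → ¬ IsSquare e → x0 ≤ x →
  2 ≤ z → 40 * (Real.log z) ^ 2 ≤ Real.log x →
  ∑ p ∈ (Icc (z + 1) x).filter (fun p => p.Prime ∧ jacobiSym (e : ℤ) p ≠ 1), (1 : ℝ) / p ≤
    c / Real.log x → (x : ℝ) ≤ (e : ℝ) ^ 2

/-- PERW: weighted sums of the Jacobi symbol over the denominators (from PER, Abel summation). -/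
def ST_PERW : Prop := ∀ n : ℤ, n ≠ 0 → ¬ IsSquare n → ∀ A B : ℕ, 1 ≤ A →
  |∑ r ∈ (Icc A B).filter (fun r => Odd r), (jacobiSym n r : ℝ) / r| ≤ 8 * |(n : ℝ)| / A

/-- WL1: weighted large sieve, `K`-fold products of primes of `U` (from PERW, FI6). -/
def ST_WL1 : Prop := ∀ (ι : Type) [DecidableEq ι] (T : Finset ι) (Y : ι → ℤ) (K0 K z x : ℕ)
  (U : Finset ℕ), 1 ≤ K → 1 ≤ z → 1 ≤ x → (∀ t ∈ T, Y t ≠ 0 ∧ |Y t| ≤ K0) →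
  (∀ p ∈ U, p.Prime ∧ p ≠ 2 ∧ z ≤ p ∧ p ≤ x) →
  ∑ t ∈ Fintype.piFinset (fun _ : Fin K => U), (∏ i, 1 / (t i : ℝ)) *
      (∑ a ∈ T, (jacobiSym (Y a) (∏ i, t i) : ℝ)) ^ 2 ≤
    (K : ℝ) ^ K * ((1 + K * Real.log x) *
      (((T ×ˢ T).filter (fun x => IsSquare (Y x.1 * Y x.2))).card : ℝ) +
      8 * (K0 : ℝ) ^ 2 / (z : ℝ) ^ K * (T.card : ℝ) ^ 2)

/-- WL2: the same in two variables (from PERW, FI6). -/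
def ST_WL2 : Prop := ∀ (ι : Type) [DecidableEq ι] (T : Finset ι) (C D : ι → ℤ) (K0 K z x : ℕ)
  (U : Finset ℕ), 1 ≤ K → 1 ≤ z → 1 ≤ x →
  (∀ t ∈ T, C t ≠ 0 ∧ |C t| ≤ K0 ∧ D t ≠ 0 ∧ |D t| ≤ K0) →
  (∀ p ∈ U, p.Prime ∧ p ≠ 2 ∧ z ≤ p ∧ p ≤ x) →
  ∑ t ∈ Fintype.piFinset (fun _ : Fin K => U), ∑ t' ∈ Fintype.piFinset (fun _ : Fin K => U),
      (∏ i, 1 / (t i : ℝ)) * (∏ i, 1 / (t' i : ℝ)) *
      (∑ a ∈ T, (jacobiSym (C a) (∏ i, t i) : ℝ) * (jacobiSym (D a) (∏ i, t' i) : ℝ)) ^ 2 ≤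
    (K : ℝ) ^ (2 * K) * ((1 + K * Real.log x) ^ 2 *
      (((T ×ˢ T).filter (fun x => IsSquare (C x.1 * C x.2) ∧ IsSquare (D x.1 * D x.2))).card : ℝ)
      + (1 + K * Real.log x) * (8 * (K0 : ℝ) ^ 2 / (z : ℝ) ^ K) * (T.card : ℝ) ^ 2)

/-- LOWG: LOW for arbitrary sign patterns (copy of `Helper79/RD/LOW.lean`). -/
def ST_LOWG : Prop := ∀ (N q : ℕ) (S : Finset ℕ) (e c d : ℕ → ℕ → ℤ) (k : ℤ) (w : ℝ) (K : ℕ)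
  (t t' : Fin K → ℕ) (σ σ' : Fin K → ℤ) (X Y : Finset ℕ), Dat N q S e c d k w → 1 ≤ K →
  (∀ i, t i ∈ OP q) → (∀ i, t' i ∈ OP q) → X ⊆ S → Y ⊆ S →
  (∀ n ∈ X, ∀ i, e n (t i) = σ i ∧ e n (t' i) = σ' i) →
  (∀ n ∈ Y, ∀ i, e n (t i) = -σ i ∧ e n (t' i) = σ' i) →
  ((X.card : ℤ) * Y.card) ^ 2 ≤ QQ S c d (∏ i, t i) (∏ i, t' i)

/-- total weight -/
noncomputable def VV (U : Finset ℕ) : ℝ := ∑ p ∈ U, (1 : ℝ) / p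

/-- weight of the primes of `U` separating `i` and `j` -/
noncomputable def Dl (U : Finset ℕ) (e : ℕ → ℕ → ℤ) (i j : ℕ) : ℝ :=
  ∑ p ∈ U.filter (fun p => e i p ≠ e j p), (1 : ℝ) / p

open Classical in
/-- the pairs which are neither close nor antipodal -/
noncomputable def GG (J U : Finset ℕ) (e : ℕ → ℕ → ℤ) (η : ℝ) : Finset (ℕ × ℕ) :=
  (J ×ˢ J).filter (fun i => η * VV U ≤ Dl U e i.1 i.2 ∧ Dl U e i.1 i.2 ≤ (1 - η) * VV U)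

/-- DIC: few pairs are neither close nor antipodal (from LOWG, WL2, Cauchy–Schwarz twice). -/
def ST_DIC : Prop := ∀ (N q K z x : ℕ) (J U : Finset ℕ) (e c d : ℕ → ℕ → ℤ) (k : ℤ) (w η : ℝ),
  1 ≤ N → 1 ≤ K → 1 ≤ z → 1 ≤ x → Dat N q J e c d k w → U ⊆ OP q → (∀ p ∈ U, z ≤ p ∧ p ≤ x) →
  0 < η → η ≤ 1 / 2 →
  ((GG J U e η).card : ℝ) ^ 4 * VV U ^ (2 * K) * (η / 2) ^ (4 * K) ≤
    4 ^ (4 * K) * (K : ℝ) ^ (2 * K) * ((1 + K * Real.log x) ^ 2 * ((MM J c d).card : ℝ) +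
      (1 + K * Real.log x) * (2048 * (N : ℝ) ^ 8 / (z : ℝ) ^ K) * (J.card : ℝ) ^ 8)

/-- CLU: a large set of pairwise close points. -/
def ST_CLU : Prop := ∀ (J U : Finset ℕ) (e : ℕ → ℕ → ℤ) (η : ℝ), J.Nonempty →
  (∀ n l, e n l = 1 ∨ e n l = -1) → 0 ≤ η → 4 * (GG J U e η).card ≤ J.card ^ 2 →
  ∃ J1 : Finset ℕ, J1 ⊆ J ∧ J.card ≤ 3 * J1.card ∧
    ∀ i ∈ J1, ∀ j ∈ J1, Dl U e i j ≤ 2 * η * VV U

open Classical in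
/-- the 4-cycles for which the product of the `d` is not a square -/
noncomputable def TN (J : Finset ℕ) (d : ℕ → ℕ → ℤ) : Finset (ℕ × ℕ × ℕ × ℕ) :=
  (T4 J).filter (fun t => ¬ IsSquare (cyc d t))

/-- NSQ: if the symbols are mostly `1` and each nonsquare class is rare, then nonsquare cycles are
rare (from WL1). -/
def ST_NSQ : Prop := ∀ (N K z x : ℕ) (J U : Finset ℕ) (d : ℕ → ℕ → ℤ) (W : ℝ), 1 ≤ N → 1 ≤ K →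
  1 ≤ z → 1 ≤ x → 0 ≤ W → (∀ i ∈ J, ∀ j ∈ J, i ≠ j → 1 ≤ d i j ∧ d i j ≤ 2 * N) →
  (∀ p ∈ U, p.Prime ∧ p ≠ 2 ∧ z ≤ p ∧ p ≤ x) → 0 < VV U →
  (∀ t ∈ T4 J, VV U * (1 - 1 / (2 * K)) ≤ ∑ p ∈ U, (jacobiSym (cyc d t) p : ℝ) / p) →
  (∀ t0 ∈ TN J d, (((T4 J).filter (fun t => IsSquare (cyc d t * cyc d t0))).card : ℝ) ≤ W) →
  (K : ℝ) ^ K * (2048 * (N : ℝ) ^ 8 / (z : ℝ) ^ K) ≤ VV U ^ K / 8 →
  ((TN J d).card : ℝ) ≤ 8 * (K : ℝ) ^ K * (1 + K * Real.log x) * W / VV U ^ K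

open Classical in
/-- the pairs for which the 4-cycle with the edge `(x, y)` is not a square -/
noncomputable def NQ (J : Finset ℕ) (d : ℕ → ℕ → ℤ) (x y : ℕ) : Finset (ℕ × ℕ) :=
  (J ×ˢ J).filter (fun z => z.1 ≠ z.2 ∧ z.1 ≠ y ∧ x ≠ z.2 ∧
    ¬ IsSquare (d z.1 z.2 * d z.1 y * d x z.2 * d x y))

/-- PG: pigeonhole. -/
def ST_PG : Prop := ∀ (J : Finset ℕ) (d : ℕ → ℕ → ℤ) (ξ : ℝ), 2 ≤ J.card → 0 ≤ ξ →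
  ((TN J d).card : ℝ) ≤ ξ * (J.card : ℝ) ^ 4 →
  ∃ x ∈ J, ∃ y ∈ J, x ≠ y ∧ ((NQ J d x y).card : ℝ) ≤ 2 * ξ * (J.card : ℝ) ^ 2

/-- BL1: bilinear sums of the character modulo one prime (compare BIL, `Helper9/RD6/BIL.lean`). -/
def ST_BL1 : Prop := ∀ (p : ℕ) (J : Finset ℕ) (α β F G : ℕ → ℤ), p.Prime → p ≠ 2 →
  (∀ n, |F n| ≤ 1) → (∀ n, |G n| ≤ 1) →
  (∑ i ∈ J, ∑ j ∈ J, jacobiSym (α i + β j) p * F i * G j) ^ 2 ≤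
    (p : ℤ) * (((J ×ˢ J).filter (fun x => (p : ℤ) ∣ α x.1 - α x.2)).card : ℤ) *
      (((J ×ˢ J).filter (fun x => (p : ℤ) ∣ β x.1 - β x.2)).card : ℤ)

/-- SP1: few primes up to `Z ≤ |J| ^ 2 / 64` do not divide `q` (from BL1; sum over the primes). -/
def ST_SP1 : Prop := ∀ (N q a Z : ℕ) (S J : Finset ℕ) (e c d : ℕ → ℕ → ℤ) (k : ℤ) (w ξ : ℝ)
  (m : ℕ → ℤ) (x y : ℕ), 1 ≤ N → 1 ≤ q → 1 ≤ Z → DatR N q a S e c d k w m → J ⊆ S → x ∈ J →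
  y ∈ J → x ≠ y → ((NQ J d x y).card : ℝ) ≤ ξ * (J.card : ℝ) ^ 2 → ξ ≤ 1 / 16 →
  100 ≤ J.card → 64 * Z ≤ J.card ^ 2 →
  ((NP q Z).card : ℝ) ≤ 100 * (1 + Real.log N) * Real.sqrt Z

/-- the points with sign `s` at `p` -/
def Sg (J : Finset ℕ) (e : ℕ → ℕ → ℤ) (p : ℕ) (s : ℤ) : Finset ℕ :=
  J.filter (fun n => e n p = s)

open Classical in
/-- the primes of `q` up to `Z` with both signs on many pairs -/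
noncomputable def SPL (q Z : ℕ) (J : Finset ℕ) (e : ℕ → ℕ → ℤ) (ρ : ℝ) : Finset ℕ :=
  (PP q Z).filter (fun p => ρ * (J.card : ℝ) ^ 2 ≤
    ((Sg J e p 1).card : ℝ) * ((Sg J e p (-1)).card : ℝ))

/-- SP2: few primes of `q` up to `Z ≤ (ρ |J| / 8) ^ 2` are split (from BL1). -/
def ST_SP2 : Prop := ∀ (N q a Z : ℕ) (S J : Finset ℕ) (e c d : ℕ → ℕ → ℤ) (k : ℤ) (w ξ ρ : ℝ)
  (m : ℕ → ℤ) (x y : ℕ), 1 ≤ N → 1 ≤ q → 1 ≤ Z → DatR N q a S e c d k w m → J ⊆ S → x ∈ J →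
  y ∈ J → x ≠ y → ((NQ J d x y).card : ℝ) ≤ ξ * (J.card : ℝ) ^ 2 → 0 < ρ → 16 * ξ ≤ ρ →
  100 ≤ ρ * J.card → 8 * Real.sqrt Z ≤ ρ * J.card →
  ((SPL q Z J e ρ).card : ℝ) ≤ 100 * (1 + Real.log N) * Real.sqrt Z / ρ

/-- A1: on a large set almost all 4-cycles are squares (from ARR, NPB, EXT, WE, EXC, DIC, CLU,
NSQ, END2). -/
def ST_A1 : Prop := ∀ ε : ℝ, 0 < ε → ε ≤ 1 / 10 → ∃ (δ : ℝ) (N0 : ℕ), 0 < δ ∧ δ ≤ ε ∧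
  ∀ N q a : ℕ, N0 ≤ N → 1 ≤ q → Nat.Coprime q a →
  (N : ℝ) ^ (1 / 2 + ε) ≤ (SS N q a).card →
  ∃ (S J : Finset ℕ) (e c d : ℕ → ℕ → ℤ) (k : ℤ) (w : ℝ) (m : ℕ → ℤ),
    DatR N q a S e c d k w m ∧ J ⊆ S ∧
    ((SS N q a).card : ℝ) ≤ (N : ℝ) ^ (ε / 4) * J.card ∧
    ((TN J d).card : ℝ) ≤ (N : ℝ) ^ (-δ) * (J.card : ℝ) ^ 4

/-- MAIN8 (from A1, PG, SP1, SP2, UNS, MAIN2). -/
def ST_MAIN8 : Prop := ∀ ε : ℝ, 0 < ε → ∃ C : ℝ, ∀ N q a : ℕ, 1 ≤ N → 1 ≤ q →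
  Nat.Coprime q a →
  (((range N).filter (fun n => IsSquare (q * n + a))).card : ℝ) ≤
    C * (N : ℝ) ^ ε * (Real.sqrt N + (Real.log q) ^ (1 / 4 : ℝ))

end Pool.Agent.Helper19.RD
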