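import Pool.Agent.Helper19.RD.MAIN10
import Pool.Agent.Helper97.RD8.Stmts11

/-! Project RD: the form `q = q₁ q₂` of MAIN11 (T4). -/

set_option autoImplicit false

namespace Pool.Agent.Helper19.RD

open Finset Pool.Agent.Helper18.RD Pool.Agent.Helper97.RD8

/-- few squares or `log q` is controlled by `log q₁` -/
theorem logq_dich (hA : ST_ARW) (hW : ST_W) (N q1 q2 a : ℕ) (hN : 1 ≤ N) (hq1 : 1 ≤ q1)
    (hq2 : 1 ≤ q2) (hcop : Nat.Coprime q1 q2) (hcopa : Nat.Coprime (q1 * q2) a) :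
    ((SS N (q1 * q2) a).card : ℝ) ≤ 4 * (q2.primeFactors.card : ℝ) + 4 ∨
      Real.log ((q1 * q2 : ℕ) : ℝ) ≤ 2 * Real.log q1 + 15 * N := by
  have hq : 1 ≤ q1 * q2 := Nat.one_le_iff_ne_zero.mpr (by positivity)
  have hNr : (1 : ℝ) ≤ N := by exact_mod_cast hN
  have hN0 : (0 : ℝ) < N := by linarith
  obtain ⟨S, e, c, d, k, w, hSS, hhalf, hD, hw⟩ := hA N (q1 * q2) a hN hq hcopa
  have hhalf' : ((SS N (q1 * q2) a).card : ℝ) ≤ 2 * (S.card : ℝ) := by exact_mod_cast hhalf
  by_cases hsm : 2 * (q2.primeFactors.card + 1) ≤ S.card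
  · right
    have hWW := hW N q1 q2 S e c d k w hN hq1 hq2 hcop hD hsm
    have hSne : S.Nonempty := by rw [← card_pos]; omega
    have hw' := hw hSne
    have hlq := log_q_le (q1 * q2) hq
    have hSR : (S.card : ℝ) ≤ N := by
      have h1 : S.card ≤ N := by
        calc S.card ≤ (SS N (q1 * q2) a).card := card_le_card hSS
          _ ≤ (range N).card := card_filter_le _ _
          _ = N := card_range N
      exact_mod_cast h1
    have hHH0 : 0 ≤ HH N := by
      unfold HH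
      have h1 : 0 ≤ Real.log (N : ℝ) := Real.log_natCast_nonneg N
      have h2 : 0 ≤ Real.log 16 := Real.log_nonneg (by norm_num)
      linarith
    have hsS : Real.sqrt S.card ≤ Real.sqrt N := Real.sqrt_le_sqrt hSR
    have h20 : Real.log 2 ≤ 1 := by
      have := Real.log_le_sub_one_of_pos (show (0 : ℝ) < 2 by norm_num)
      linarith
    have hHHN : HH N ≤ 7 * Real.sqrt N := by
      unfold HH
      have hsN : 1 ≤ Real.sqrt N := by rw [Real.one_le_sqrt]; exact hNr
      have h1 : Real.log (N : ℝ) ≤ Real.sqrt N := by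
        have h2 : Real.log (N : ℝ) = 2 * Real.log (Real.sqrt N) := by
          rw [Real.log_sqrt hN0.le]; ring
        have h4 : Real.log (Real.sqrt N) ≤ Real.sqrt N / 2 := by
          have h5 := Real.log_le_sub_one_of_pos (show (0 : ℝ) < Real.sqrt N / 2 by positivity)
          have h6 : Real.log (Real.sqrt N / 2) = Real.log (Real.sqrt N) - Real.log 2 :=
            Real.log_div (by positivity) (by norm_num)
          linarith
        linarith
      have h2 : Real.log 16 ≤ 4 := by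
        have h3 : Real.log 16 = 4 * Real.log 2 := by
          rw [show (16 : ℝ) = 2 ^ 4 by norm_num, Real.log_pow]; norm_num
        linarith
      linarith
    have h1 : 2 * Real.sqrt S.card * HH N ≤ 14 * N := by
      calc 2 * Real.sqrt S.card * HH N ≤ 2 * Real.sqrt N * (7 * Real.sqrt N) := by gcongr
        _ = 14 * (Real.sqrt N * Real.sqrt N) := by ring
        _ = 14 * N := by rw [Real.mul_self_sqrt hN0.le]
    linarith
  · left
    push Not at hsm
    have h1 : (S.card : ℝ) ≤ 2 * ((q2.primeFactors.card : ℝ) + 1) := by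
      exact_mod_cast hsm.le
    linarith

/-- MAIN12 -/
def ST_MAIN12 : Prop := ∀ ε : ℝ, 0 < ε → ∃ C δ : ℝ, 0 < C ∧ 0 < δ ∧ ∀ N q1 q2 a y : ℕ, 1 ≤ N →
  1 ≤ q1 → 1 ≤ q2 → 1 ≤ y → Nat.Coprime q1 q2 → Nat.Coprime (q1 * q2) a →
  (N : ℝ) ^ (-δ) * y ≤ (((Icc 1 y).filter (fun p => p.Prime ∧ p ∣ q1 * q2)).card : ℝ) →
  (((range N).filter (fun n => IsSquare (q1 * q2 * n + a))).card : ℝ) ≤
    C * ((N : ℝ) ^ ε * (Real.sqrt N + Real.sqrt (Real.log q1 / y)) +
      (q2.primeFactors.card : ℝ))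

theorem st_MAIN12 (hA : ST_ARW) (hW : ST_W) (hM : ST_MAIN11) : ST_MAIN12 := by
  intro ε hε
  obtain ⟨C, δ, hC, hδ, hM⟩ := hM ε hε
  refine ⟨5 * C + 8, δ, by linarith, hδ, ?_⟩
  intro N q1 q2 a y hN hq1 hq2 hy hcop hcopa hdens
  have hq : 1 ≤ q1 * q2 := Nat.one_le_iff_ne_zero.mpr (by positivity)
  have hm := hM N (q1 * q2) a y hN hq hy hcopa hdens
  have hNr : (1 : ℝ) ≤ N := by exact_mod_cast hN
  have hN0 : (0 : ℝ) < N := by linarith
  have hyr : (1 : ℝ) ≤ y := by exact_mod_cast hy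
  have hNε : 1 ≤ (N : ℝ) ^ ε := Real.one_le_rpow hNr hε.le
  have hsN : 1 ≤ Real.sqrt N := by rw [Real.one_le_sqrt]; exact hNr
  have hL1 : 0 ≤ Real.log (q1 : ℝ) := Real.log_natCast_nonneg q1
  obtain ⟨T, hT⟩ : ∃ T : ℝ, T = Real.sqrt (Real.log q1 / y) := ⟨_, rfl⟩
  have hT0 : 0 ≤ T := by rw [hT]; exact Real.sqrt_nonneg _
  rw [← hT]
  have hom0 : (0 : ℝ) ≤ (q2.primeFactors.card : ℝ) := Nat.cast_nonneg _
  have hX1 : 1 ≤ (N : ℝ) ^ ε * (Real.sqrt N + T) := by nlinarith
  have hX0 : 0 ≤ (N : ℝ) ^ ε * (Real.sqrt N + T) := by linarith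
  rcases logq_dich hA hW N q1 q2 a hN hq1 hq2 hcop hcopa with h | h
  · have h1 : (((range N).filter (fun n => IsSquare (q1 * q2 * n + a))).card : ℝ) ≤
        4 * (q2.primeFactors.card : ℝ) + 4 := h
    refine h1.trans ?_
    nlinarith
  · have hlq0 : 0 ≤ Real.log ((q1 * q2 : ℕ) : ℝ) := Real.log_natCast_nonneg _
    have h2 : Real.sqrt (Real.log ((q1 * q2 : ℕ) : ℝ) / y) ≤ 2 * T + 4 * Real.sqrt N := by
      have h3 : Real.log ((q1 * q2 : ℕ) : ℝ) / y ≤ 4 * (Real.log q1 / y) + 16 * N := by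
        have h4 : Real.log ((q1 * q2 : ℕ) : ℝ) / y ≤ (2 * Real.log q1 + 15 * N) / y := by
          gcongr
        have h5 : (2 * Real.log (q1 : ℝ) + 15 * N) / y = 2 * (Real.log q1 / y) + 15 * N / y := by
          ring
        have h6 : 15 * (N : ℝ) / y ≤ 15 * N := div_le_self (by positivity) hyr
        have h7 : 0 ≤ Real.log (q1 : ℝ) / y := by positivity
        linarith
      calc Real.sqrt (Real.log ((q1 * q2 : ℕ) : ℝ) / y)
          ≤ Real.sqrt (4 * (Real.log q1 / y) + 16 * N) := Real.sqrt_le_sqrt h3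
        _ ≤ Real.sqrt (4 * (Real.log q1 / y)) + Real.sqrt (16 * N) := by
            apply Real.sqrt_le_iff.mpr
            have h8 : 0 ≤ 4 * (Real.log (q1 : ℝ) / y) := by positivity
            have h9 : 0 ≤ 16 * (N : ℝ) := by positivity
            have ha := Real.sq_sqrt h8
            have hb := Real.sq_sqrt h9
            have hc := Real.sqrt_nonneg (4 * (Real.log (q1 : ℝ) / y))
            have hd := Real.sqrt_nonneg (16 * (N : ℝ))
            constructor
            · positivity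
            · nlinarith
        _ = 2 * T + 4 * Real.sqrt N := by
            rw [Real.sqrt_mul (by norm_num), Real.sqrt_mul (by norm_num), hT,
              show (4 : ℝ) = 2 ^ 2 by norm_num, show (16 : ℝ) = 4 ^ 2 by norm_num,
              Real.sqrt_sq (by norm_num), Real.sqrt_sq (by norm_num)]
            norm_num
    calc (((range N).filter (fun n => IsSquare (q1 * q2 * n + a))).card : ℝ)
        ≤ C * (N : ℝ) ^ ε * (Real.sqrt N + Real.sqrt (Real.log ((q1 * q2 : ℕ) : ℝ) / y)) := hm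
      _ ≤ C * (N : ℝ) ^ ε * (Real.sqrt N + (2 * T + 4 * Real.sqrt N)) := by gcongr
      _ ≤ C * (N : ℝ) ^ ε * (5 * (Real.sqrt N + T)) := by
          apply mul_le_mul_of_nonneg_left _ (by positivity)
          linarith
      _ = (5 * C) * ((N : ℝ) ^ ε * (Real.sqrt N + T)) := by ring
      _ ≤ (5 * C + 8) * ((N : ℝ) ^ ε * (Real.sqrt N + T) + (q2.primeFactors.card : ℝ)) := by
          nlinarith

end Pool.Agent.Helper19.RD
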