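import Pool.Agent.Helper19.RD.Stmts8
import Pool.Agent.Helper58.RD.AR

/-! Project RD: `#S ≤ C (N ^ ε (√N + (log q₁) ^ (1 / 4)) + ω(q₂))` for `q = q₁ q₂`. -/

set_option autoImplicit false

namespace Pool.Agent.Helper19.RD

open Finset Pool.Agent.Helper18.RD

/-- AR with a lower bound for the weight of the trivial coordinate -/
def ST_ARW : Prop := ∀ N q a : ℕ, 1 ≤ N → 1 ≤ q → Nat.Coprime q a →
  ∃ (S : Finset ℕ) (e c d : ℕ → ℕ → ℤ) (k : ℤ) (w : ℝ), S ⊆ SS N q a ∧
    (SS N q a).card ≤ 2 * S.card ∧ Dat N q S e c d k w ∧ (S.Nonempty → Real.log (EE q) ≤ w)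

theorem st_ARW (hHALF : ST_HALF) (hUV : ST_UV) (hGR : ST_GR) (hCHI : ST_CHI) : ST_ARW := by
  intro N q a hN hq hc
  obtain ⟨S, hS, hcard, hE⟩ := hHALF N q a hq hc
  rcases S.eq_empty_or_nonempty with hemp | ⟨b, hb⟩
  · subst hemp
    refine ⟨∅, fun n l => sg q a 0 n l, fun _ _ => 1, fun _ _ => 1, 1, 0, hS, hcard, ?_, ?_⟩
    · exact
        { sub := by simp
          kap := Or.inl rfl
          sgn := fun n l => Pool.Agent.Helper58.RD.sg_cases q a 0 n l
          cd := by simp
          w0 := le_refl _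
          gram := by simp
          chi := fun p _ => ⟨fun _ => 1, fun _ => 1, fun _ => 1, fun _ => Or.inl rfl,
            fun _ => Or.inl rfl, fun _ => Or.inl rfl, by simp⟩ }
    · intro h
      exact absurd h (by simp)
  · have hsq : ∀ n ∈ S, IsSquare (q * n + a) := fun n hn => (mem_filter.mp (hS hn)).2
    have hlt : ∀ n ∈ S, n < N := fun n hn => mem_range.mp (mem_filter.mp (hS hn)).1
    have hhyp : ∀ n ∈ S, ∀ n' ∈ S, n ≠ n' → Hyp q a b n n' := fun n hn n' hn' hne =>
      { q1 := hq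
        cop := hc
        hb := hsq b hb
        hn := hsq n hn
        hn' := hsq n' hn'
        ne := hne
        hE := hE n hn n' hn' }
    refine ⟨S, fun n l => sg q a b n l, cc q a b, dd q a b, (kap q : ℤ), wi N q a, hS, hcard,
      ?_, ?_⟩
    · exact
        { sub := fun n hn => mem_range.mpr (hlt n hn)
          kap := Pool.Agent.Helper58.RD.kap_cases q
          sgn := fun n l => Pool.Agent.Helper58.RD.sg_cases q a b n l
          cd := fun n hn n' hn' hne => (hUV q a b n n' (hhyp n hn n' hn' hne)).2.2.2.1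
          w0 := Pool.Agent.Helper58.RD.wi_nonneg N q a hN
          gram := fun n hn n' hn' hne =>
            hGR N q a b n n' (hhyp n hn n' hn' hne) (hlt n hn) (hlt n' hn')
          chi := fun p hp => by
            obtain ⟨f, lam, mu, h1, h2, h3, h4⟩ := hCHI q a b p hq hc (hsq b hb) hp
            exact ⟨f, lam, mu, h1, h2, h3, fun n hn n' hn' hne =>
              h4 n n' (hhyp n hn n' hn' hne)⟩ }
    · intro _
      unfold wi
      have h1 : (1 : ℝ) ≤ N := by exact_mod_cast hN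
      have h2 : (0 : ℝ) ≤ (a : ℝ) / q := by positivity
      have h3 : (1 : ℝ) ≤ 8 * ((a : ℝ) / q + N) := by linarith
      have h4 := Real.log_nonneg h3
      linarith

/-- `log q` from its prime powers -/
theorem log_q_le (q : ℕ) (hq : 1 ≤ q) :
    Real.log q ≤ Real.log (EE q) + ∑ l ∈ OP q, wt q l + Real.log 2 := by
  have hq0 : q ≠ 0 := by omega
  have h1 : q = 2 ^ (q.factorization 2) * ∏ l ∈ OP q, pw q l := by
    have h2 := Nat.prod_factorization_pow_eq_self hq0
    conv_lhs => rw [← h2]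
    rw [Finsupp.prod, Nat.support_factorization]
    by_cases h : 2 ∈ q.primeFactors
    · rw [← mul_prod_erase _ _ h]
      rfl
    · have h3 : q.factorization 2 = 0 := by
        rw [← Finsupp.notMem_support_iff, Nat.support_factorization]
        exact h
      rw [h3, pow_zero, one_mul]
      unfold OP
      rw [erase_eq_of_notMem h]
      rfl
  have hpw : ∀ l ∈ OP q, (0 : ℝ) < (pw q l : ℝ) := by
    intro l hl
    have hl' : l.Prime := Nat.prime_of_mem_primeFactors (mem_of_mem_erase hl)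
    have : 0 < pw q l := by unfold pw; exact pow_pos hl'.pos _
    exact_mod_cast this
  have h4 : Real.log q = q.factorization 2 * Real.log 2 + ∑ l ∈ OP q, wt q l := by
    have h5 : (q : ℝ) = (2 : ℝ) ^ (q.factorization 2) * ∏ l ∈ OP q, (pw q l : ℝ) := by
      have := congrArg (fun n : ℕ => (n : ℝ)) h1
      push_cast at this
      exact this
    rw [h5, Real.log_mul (by positivity) (prod_ne_zero_iff.mpr fun l hl => (hpw l hl).ne'),
      Real.log_pow, Real.log_prod (fun l hl => (hpw l hl).ne')]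
    rfl
  have h6 : (q.factorization 2 : ℝ) * Real.log 2 ≤ Real.log (EE q) + Real.log 2 := by
    unfold EE
    push_cast
    rw [Real.log_pow]
    have h7 : (q.factorization 2 : ℝ) ≤ ((q.factorization 2 - 1 : ℕ) : ℝ) + 1 := by
      have : q.factorization 2 ≤ (q.factorization 2 - 1) + 1 := by omega
      exact_mod_cast this
    have h8 : 0 ≤ Real.log 2 := Real.log_nonneg (by norm_num)
    nlinarith
  linarith

/-- MAIN10 -/
def ST_MAIN10 : Prop := ∀ ε : ℝ, 0 < ε → ∃ C : ℝ, 0 < C ∧ ∀ N q1 q2 a : ℕ, 1 ≤ N → 1 ≤ q1 →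
  1 ≤ q2 → Nat.Coprime q1 q2 → Nat.Coprime (q1 * q2) a →
  (((range N).filter (fun n => IsSquare (q1 * q2 * n + a))).card : ℝ) ≤
    C * ((N : ℝ) ^ ε * (Real.sqrt N + (Real.log q1) ^ (1 / 4 : ℝ)) +
      (q2.primeFactors.card : ℝ))

theorem rpow_add_le4 {x y : ℝ} (hx : 0 ≤ x) (hy : 0 ≤ y) :
    (x + y) ^ (1 / 4 : ℝ) ≤ x ^ (1 / 4 : ℝ) + y ^ (1 / 4 : ℝ) :=
  Real.rpow_add_le_add_rpow hx hy (by norm_num) (by norm_num)

theorem st_MAIN10 (hA : ST_ARW) (hW : ST_W) (hM : ST_MAIN8) : ST_MAIN10 := by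
  classical
  intro ε hε
  obtain ⟨C, hM⟩ := hM ε hε
  obtain ⟨C0, hC0⟩ : ∃ C0 : ℝ, C0 = max C 0 := ⟨_, rfl⟩
  have hC00 : 0 ≤ C0 := by rw [hC0]; exact le_max_right _ _
  have hCC0 : C ≤ C0 := by rw [hC0]; exact le_max_left _ _
  refine ⟨20 * C0 + 8, by linarith, ?_⟩
  intro N q1 q2 a hN hq1 hq2 hcop hcopa
  have hq : 1 ≤ q1 * q2 := Nat.one_le_iff_ne_zero.mpr (by positivity)
  have hm := hM N (q1 * q2) a hN hq hcopa
  obtain ⟨R, hR⟩ : ∃ R : ℝ,
    R = (((range N).filter (fun n => IsSquare (q1 * q2 * n + a))).card : ℝ) := ⟨_, rfl⟩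
  rw [← hR] at hm ⊢
  have hRS : R = ((SS N (q1 * q2) a).card : ℝ) := hR
  have hNr : (1 : ℝ) ≤ N := by exact_mod_cast hN
  have hN0 : (0 : ℝ) < N := by linarith
  have hNε : 1 ≤ (N : ℝ) ^ ε := Real.one_le_rpow hNr hε.le
  have hsN : 1 ≤ Real.sqrt N := by rw [Real.one_le_sqrt]; exact hNr
  have hL1 : 0 ≤ Real.log (q1 : ℝ) := Real.log_natCast_nonneg q1
  obtain ⟨T, hT⟩ : ∃ T : ℝ, T = (Real.log q1) ^ (1 / 4 : ℝ) := ⟨_, rfl⟩
  have hT0 : 0 ≤ T := by rw [hT]; positivity
  rw [← hT]
  obtain ⟨om, hom⟩ : ∃ om : ℝ, om = (q2.primeFactors.card : ℝ) := ⟨_, rfl⟩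
  rw [← hom]
  have hom0 : 0 ≤ om := by rw [hom]; positivity
  have hE0 : 0 < (N : ℝ) ^ ε := by linarith
  have hX1 : 1 ≤ (N : ℝ) ^ ε * (Real.sqrt N + T) := by nlinarith
  have hRN : R ≤ N := by
    have h1 : (SS N (q1 * q2) a).card ≤ N := by
      calc (SS N (q1 * q2) a).card ≤ (range N).card := card_filter_le _ _
        _ = N := card_range N
    rw [hRS]; exact_mod_cast h1
  obtain ⟨S, e, c, d, k, w, hSS, hhalf, hD, hw⟩ := hA N (q1 * q2) a hN hq hcopa
  have hhalf' : R ≤ 2 * (S.card : ℝ) := by rw [hRS]; exact_mod_cast hhalf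
  by_cases hsm : 2 * (q2.primeFactors.card + 1) ≤ S.card
  · -- `log q` is small
    have hWW := hW N q1 q2 S e c d k w hN hq1 hq2 hcop hD hsm
    have hSne : S.Nonempty := by rw [← card_pos]; omega
    have hw' := hw hSne
    have hlq := log_q_le (q1 * q2) hq
    have hSR : (S.card : ℝ) ≤ N := by
      have h1 : S.card ≤ (SS N (q1 * q2) a).card := card_le_card hSS
      have h2 : (S.card : ℝ) ≤ ((SS N (q1 * q2) a).card : ℝ) := by exact_mod_cast h1
      rw [hRS] at hRN
      linarith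
    have hHH0 : 0 ≤ HH N := by
      unfold HH
      have h1 : 0 ≤ Real.log (N : ℝ) := Real.log_natCast_nonneg N
      have h2 : 0 ≤ Real.log 16 := Real.log_nonneg (by norm_num)
      linarith
    have hsS : Real.sqrt S.card ≤ Real.sqrt N := Real.sqrt_le_sqrt hSR
    have hHHN : HH N ≤ 7 * Real.sqrt N := by
      unfold HH
      have h1 : Real.log (N : ℝ) ≤ Real.sqrt N := by
        have h2 : Real.log (N : ℝ) = 2 * Real.log (Real.sqrt N) := by
          rw [Real.log_sqrt hN0.le]; ring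
        have h3 := Real.log_le_sub_one_of_pos (show (0 : ℝ) < Real.sqrt N / 1 by positivity)
        have h4 : Real.log (Real.sqrt N) ≤ Real.sqrt N / 2 := by
          have h5 := Real.log_le_sub_one_of_pos (show (0 : ℝ) < Real.sqrt N / 2 by positivity)
          have h6 : Real.log (Real.sqrt N / 2) = Real.log (Real.sqrt N) - Real.log 2 :=
            Real.log_div (by positivity) (by norm_num)
          have h7 : Real.log 2 ≤ 1 := by
            have := Real.log_le_sub_one_of_pos (show (0 : ℝ) < 2 by norm_num)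
            linarith
          linarith
        linarith
      have h2 : Real.log 16 ≤ 4 := by
        have h3 : Real.log 16 = 4 * Real.log 2 := by
          rw [show (16 : ℝ) = 2 ^ 4 by norm_num, Real.log_pow]; norm_num
        have h4 : Real.log 2 ≤ 1 := by
          have := Real.log_le_sub_one_of_pos (show (0 : ℝ) < 2 by norm_num)
          linarith
        linarith
      linarith
    have h20 : Real.log 2 ≤ 1 := by
      have := Real.log_le_sub_one_of_pos (show (0 : ℝ) < 2 by norm_num)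
      linarith
    have hlog : Real.log ((q1 * q2 : ℕ) : ℝ) ≤ 2 * Real.log q1 + 15 * N := by
      have h1 : 2 * Real.sqrt S.card * HH N ≤ 14 * N := by
        calc 2 * Real.sqrt S.card * HH N ≤ 2 * Real.sqrt N * (7 * Real.sqrt N) := by gcongr
          _ = 14 * (Real.sqrt N * Real.sqrt N) := by ring
          _ = 14 * N := by rw [Real.mul_self_sqrt hN0.le]
      linarith
    have hlq0 : 0 ≤ Real.log ((q1 * q2 : ℕ) : ℝ) := Real.log_natCast_nonneg _
    have h4 : (Real.log ((q1 * q2 : ℕ) : ℝ)) ^ (1 / 4 : ℝ) ≤ 2 * T + 15 * Real.sqrt N := by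
      calc (Real.log ((q1 * q2 : ℕ) : ℝ)) ^ (1 / 4 : ℝ)
          ≤ (2 * Real.log q1 + 15 * N) ^ (1 / 4 : ℝ) :=
            Real.rpow_le_rpow hlq0 hlog (by norm_num)
        _ ≤ (2 * Real.log q1) ^ (1 / 4 : ℝ) + (15 * (N : ℝ)) ^ (1 / 4 : ℝ) :=
            rpow_add_le4 (by positivity) (by positivity)
        _ ≤ 2 * T + 15 * Real.sqrt N := by
            have h5 : (2 * Real.log (q1 : ℝ)) ^ (1 / 4 : ℝ) ≤ 2 * T := by
              rw [Real.mul_rpow (by norm_num) hL1, hT]
              apply mul_le_mul_of_nonneg_right _ (by positivity)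
              calc (2 : ℝ) ^ (1 / 4 : ℝ) ≤ 2 ^ (1 : ℝ) :=
                    Real.rpow_le_rpow_of_exponent_le (by norm_num) (by norm_num)
                _ = 2 := by norm_num
            have h6 : (15 * (N : ℝ)) ^ (1 / 4 : ℝ) ≤ 15 * Real.sqrt N := by
              rw [Real.mul_rpow (by norm_num) hN0.le, Real.sqrt_eq_rpow]
              apply mul_le_mul
              · calc (15 : ℝ) ^ (1 / 4 : ℝ) ≤ 15 ^ (1 : ℝ) :=
                      Real.rpow_le_rpow_of_exponent_le (by norm_num) (by norm_num)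
                  _ = 15 := by norm_num
              · exact Real.rpow_le_rpow_of_exponent_le hNr (by norm_num)
              · positivity
              · norm_num
            linarith
    calc R ≤ C * (N : ℝ) ^ ε * (Real.sqrt N + (Real.log ((q1 * q2 : ℕ) : ℝ)) ^ (1 / 4 : ℝ)) := hm
      _ ≤ C0 * (N : ℝ) ^ ε * (Real.sqrt N + (Real.log ((q1 * q2 : ℕ) : ℝ)) ^ (1 / 4 : ℝ)) := by
          gcongr
      _ ≤ C0 * (N : ℝ) ^ ε * (Real.sqrt N + (2 * T + 15 * Real.sqrt N)) := by gcongr
      _ ≤ C0 * (N : ℝ) ^ ε * (20 * (Real.sqrt N + T)) := by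
          apply mul_le_mul_of_nonneg_left _ (by positivity)
          linarith
      _ = (20 * C0) * ((N : ℝ) ^ ε * (Real.sqrt N + T)) := by ring
      _ ≤ (20 * C0 + 8) * ((N : ℝ) ^ ε * (Real.sqrt N + T) + om) := by
          have h7 : 0 ≤ (N : ℝ) ^ ε * (Real.sqrt N + T) := by positivity
          nlinarith
  · push Not at hsm
    have h1 : (S.card : ℝ) ≤ 2 * (om + 1) := by
      rw [hom]
      exact_mod_cast hsm.le
    have h2 : R ≤ 4 * om + 4 := by linarith
    nlinarith

end Pool.Agent.Helper19.RD
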