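import Pool.Agent.Helper19.RD.All8
import Pool.Agent.Helper19.RD.MAIN10

/-! Project RD, rd8: the form `q = q₁ q₂`. -/

set_option autoImplicit false

namespace Pool.Agent.Helper19.RD

open Pool.Agent.Helper18.RD

theorem main10 : ST_MAIN10 :=
  st_MAIN10
    (st_ARW Pool.Agent.Helper58.RD.st_HALF st_UV (Pool.Agent.Helper26.RD.st_GR st_UV)
      (Pool.Agent.Helper61.RD.st_CHI st_SGN st_UV))
    (st_W Pool.Agent.Helper97.RD.st_TR) main8

end Pool.Agent.Helper19.RD
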