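import Pool.Agent.Helper97.RD8.Stmts11
import Pool.Agent.Helper77.RD8.NSQ

/-! Project RD, T4, row SPB (second source). -/

set_option autoImplicit false

namespace Pool.Agent.Helper19.RD

open Finset Pool.Agent.Helper18.RD Pool.Agent.Helper97.RD8

theorem spb_T4_card (J : Finset ℕ) : ((T4 J).card : ℝ) ≤ (J.card : ℝ) ^ 4 := by
  have h1 : (T4 J).card ≤ (J ×ˢ J ×ˢ J ×ˢ J).card := card_filter_le _ _
  have h2 : (J ×ˢ J ×ˢ J ×ˢ J).card = J.card ^ 4 := by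
    rw [card_product, card_product, card_product]; ring
  rw [h2] at h1
  exact_mod_cast h1

theorem st_SPB (hWL : ST_WL1) (hEND : ST_END2) : ST_SPB := by
  classical
  obtain ⟨C2, hC2, hE⟩ := hEND
  refine ⟨10 ^ 10 * (10 * C2 + 8), by positivity, ?_⟩
  intro N z x J U β hN hNz hx hJ hNJ hβ hU hch
  have hNr : (1 : ℝ) ≤ N := by exact_mod_cast hN
  have hN0 : (0 : ℝ) < N := by linarith
  have hxr : (1 : ℝ) ≤ x := by exact_mod_cast hx
  have hlogx : 0 ≤ Real.log x := Real.log_natCast_nonneg x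
  rcases U.eq_empty_or_nonempty with hUe | hUne
  · rw [hUe, card_empty, Nat.cast_zero, zero_div]
    have : β ^ 20 * (0 : ℝ) ^ 10 = 0 := by norm_num
    rw [this]
    positivity
  have hJpos : 0 < J.card := by
    rcases Nat.eq_zero_or_pos J.card with h | h
    · rw [h] at hNJ; omega
    · exact h
  obtain ⟨t, ht⟩ : ∃ t : ℝ, t = (J.card : ℝ) := ⟨_, rfl⟩
  have ht0 : 0 < t := by rw [ht]; exact_mod_cast hJpos
  obtain ⟨T, hT⟩ : ∃ T, T = T4 J := ⟨_, rfl⟩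
  obtain ⟨Y, hY⟩ : ∃ Y : ℕ × ℕ × ℕ × ℕ → ℤ, Y = cyc df := ⟨_, rfl⟩
  obtain ⟨V, hVV⟩ : ∃ V : ℝ, V = ∑ p ∈ U, (1 : ℝ) / p := ⟨_, rfl⟩
  have hUpos : ∀ p ∈ U, (0 : ℝ) < p := fun p hp => by exact_mod_cast (hU p hp).1.pos
  have hV0 : 0 < V := by
    rw [hVV]
    exact sum_pos (fun p hp => by have := hUpos p hp; positivity) hUne
  have hUV : (U.card : ℝ) / x ≤ V := by
    rw [hVV]
    calc (U.card : ℝ) / x = ∑ _p ∈ U, (1 : ℝ) / x := by
          rw [sum_const, nsmul_eq_mul]; ring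
      _ ≤ ∑ p ∈ U, (1 : ℝ) / p := by
          refine sum_le_sum fun p hp => ?_
          apply one_div_le_one_div_of_le (hUpos p hp)
          exact_mod_cast (hU p hp).2.2.2
  have hYb : ∀ t ∈ T, Y t ≠ 0 ∧ |Y t| ≤ ((N ^ 4 : ℕ) : ℤ) := by
    intro t ht
    rw [hT] at ht
    unfold T4 at ht
    rw [mem_filter, mem_product, mem_product, mem_product] at ht
    obtain ⟨⟨h1, h2, h3, h4⟩, h5, h6, h7, h8⟩ := ht
    have hd : ∀ i ∈ J, ∀ j ∈ J, i ≠ j → df i j ≠ 0 ∧ |df i j| ≤ N := by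
      intro i hi j hj hij
      have hi' := mem_range.mp (hJ hi)
      have hj' := mem_range.mp (hJ hj)
      unfold df
      refine ⟨by omega, ?_⟩
      rw [abs_le]
      constructor <;> omega
    have e1 := hd _ h1 _ h3 h5
    have e2 := hd _ h1 _ h4 h6
    have e3 := hd _ h2 _ h3 h7
    have e4 := hd _ h2 _ h4 h8
    rw [hY]
    unfold cyc
    refine ⟨mul_ne_zero (mul_ne_zero (mul_ne_zero e1.1 e2.1) e3.1) e4.1, ?_⟩
    rw [abs_mul, abs_mul, abs_mul]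
    calc |df t.1 t.2.2.1| * |df t.1 t.2.2.2| * |df t.2.1 t.2.2.1| * |df t.2.1 t.2.2.2| ≤
        N * N * N * N := by
          apply mul_le_mul _ e4.2 (abs_nonneg _) (by positivity)
          apply mul_le_mul _ e3.2 (abs_nonneg _) (by positivity)
          exact mul_le_mul e1.2 e2.2 (abs_nonneg _) (by positivity)
      _ = ((N ^ 4 : ℕ) : ℤ) := by push_cast; ring
  obtain ⟨P, hP⟩ : ∃ P : Finset (Fin 10 → ℕ), P = Fintype.piFinset (fun _ : Fin 10 => U) :=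
    ⟨_, rfl⟩
  obtain ⟨w, hw⟩ : ∃ w : (Fin 10 → ℕ) → ℝ, ∀ s, w s = ∏ i, 1 / (s i : ℝ) :=
    ⟨fun s => ∏ i, 1 / (s i : ℝ), fun _ => rfl⟩
  obtain ⟨G, hG⟩ : ∃ G : (Fin 10 → ℕ) → ℝ,
      ∀ s, G s = ∑ a ∈ T, (jacobiSym (Y a) (∏ i, s i) : ℝ) :=
    ⟨fun s => ∑ a ∈ T, (jacobiSym (Y a) (∏ i, s i) : ℝ), fun _ => rfl⟩
  have hw0 : ∀ s, 0 ≤ w s := by
    intro s
    rw [hw]
    exact prod_nonneg fun i _ => by positivity
  have hs0 : ∀ s ∈ P, ∀ i, s i ≠ 0 := by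
    intro s hs i
    rw [hP, Fintype.mem_piFinset] at hs
    exact (hU _ (hs i)).1.ne_zero
  have hsum : ∑ s ∈ P, w s = V ^ 10 := by
    have e2 : V ^ 10 = ∏ _i : Fin 10, ∑ p ∈ U, (1 : ℝ) / p := by
      rw [prod_const, card_univ, Fintype.card_fin, hVV]
    rw [e2, prod_univ_sum, ← hP]
    exact sum_congr rfl fun s _ => hw s
  have h3 : ∑ s ∈ P, w s * G s = ∑ a ∈ T, (∑ p ∈ U, (jacobiSym (Y a) p : ℝ) / p) ^ 10 := by
    have e1 : ∀ a ∈ T, (∑ p ∈ U, (jacobiSym (Y a) p : ℝ) / p) ^ 10 =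
        ∑ s ∈ P, w s * (jacobiSym (Y a) (∏ i, s i) : ℝ) := by
      intro a _
      have e2 : (∑ p ∈ U, (jacobiSym (Y a) p : ℝ) / p) ^ 10 =
          ∏ _i : Fin 10, ∑ p ∈ U, (jacobiSym (Y a) p : ℝ) / p := by
        rw [prod_const, card_univ, Fintype.card_fin]
      rw [e2, prod_univ_sum, ← hP]
      refine sum_congr rfl fun s hs => ?_
      rw [Pool.Agent.Helper77.RD8.jac_prod (Y a) s univ (hs0 s hs), hw]
      push_cast
      rw [← prod_mul_distrib]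
      refine prod_congr rfl fun i _ => ?_
      ring
    rw [sum_congr rfl e1, sum_comm]
    refine sum_congr rfl fun s _ => ?_
    rw [hG, mul_sum]
  -- power mean
  have hTt : (T.card : ℝ) ≤ t ^ 4 := by rw [hT, ht]; exact spb_T4_card J
  have hfirst : β * t ^ 4 * V ≤ ∑ a ∈ T, ∑ p ∈ U, (jacobiSym (Y a) p : ℝ) / p := by
    rw [sum_comm, hVV, mul_sum]
    refine sum_le_sum fun p hp => ?_
    have e1 := hch p hp
    rw [← ht, ← hT] at e1
    have e2 : ∑ a ∈ T, (jacobiSym (Y a) p : ℝ) / p =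
        (∑ a ∈ T, (jacobiSym (cyc df a) p : ℝ)) * (1 / p) := by
      rw [sum_mul, hY]
      exact sum_congr rfl fun a _ => by ring
    rw [e2]
    apply mul_le_mul_of_nonneg_right e1
    have := hUpos p hp
    positivity
  have hTpos : (0 : ℝ) < T.card := by
    rcases Nat.eq_zero_or_pos T.card with h | h
    · rw [card_eq_zero] at h
      rw [h, sum_empty] at hfirst
      have : 0 < β * t ^ 4 * V := by positivity
      linarith
    · exact_mod_cast h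
  have hpm : (β * V) ^ 10 * t ^ 4 ≤ ∑ a ∈ T, (∑ p ∈ U, (jacobiSym (Y a) p : ℝ) / p) ^ 10 := by
    obtain ⟨F, hF⟩ : ∃ F : ℕ × ℕ × ℕ × ℕ → ℝ, ∀ a, F a = ∑ p ∈ U, (jacobiSym (Y a) p : ℝ) / p :=
      ⟨_, fun _ => rfl⟩
    have e2 := Real.pow_arith_mean_le_arith_mean_pow_of_even T (fun _ => 1 / (T.card : ℝ)) F
      (fun _ _ => by positivity) (by rw [sum_const, nsmul_eq_mul]; field_simp)
      (show Even 10 by decide)
    rw [← mul_sum, ← mul_sum] at e2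
    have e3 : β * t ^ 4 * V ≤ ∑ a ∈ T, F a := by
      simp only [hF]
      exact hfirst
    have e4 : (∑ a ∈ T, F a) ^ 10 ≤ (T.card : ℝ) ^ 9 * ∑ a ∈ T, F a ^ 10 := by
      have e5 : (1 / (T.card : ℝ) * ∑ a ∈ T, F a) ^ 10 * (T.card : ℝ) ^ 10 =
          (∑ a ∈ T, F a) ^ 10 := by
        rw [← mul_pow]
        congr 1
        field_simp
      rw [← e5]
      calc (1 / (T.card : ℝ) * ∑ a ∈ T, F a) ^ 10 * (T.card : ℝ) ^ 10
          ≤ (1 / (T.card : ℝ) * ∑ a ∈ T, F a ^ 10) * (T.card : ℝ) ^ 10 := by gcongr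
        _ = (T.card : ℝ) ^ 9 * ∑ a ∈ T, F a ^ 10 := by field_simp
    have e6 : (β * t ^ 4 * V) ^ 10 ≤ (∑ a ∈ T, F a) ^ 10 :=
      pow_le_pow_left₀ (by positivity) e3 10
    have hF0 : 0 ≤ ∑ a ∈ T, F a ^ 10 := sum_nonneg fun a _ => (show Even 10 by decide).pow_nonneg _
    have e7 : (T.card : ℝ) ^ 9 ≤ (t ^ 4) ^ 9 := pow_le_pow_left₀ hTpos.le hTt 9
    have e8 : (t ^ 4) ^ 9 * ((β * V) ^ 10 * t ^ 4) ≤ (t ^ 4) ^ 9 * ∑ a ∈ T, F a ^ 10 := by
      calc (t ^ 4) ^ 9 * ((β * V) ^ 10 * t ^ 4) = (β * t ^ 4 * V) ^ 10 := by ring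
        _ ≤ (T.card : ℝ) ^ 9 * ∑ a ∈ T, F a ^ 10 := e6.trans e4
        _ ≤ _ := mul_le_mul_of_nonneg_right e7 hF0
    have e9 := le_of_mul_le_mul_left e8 (by positivity)
    simp only [hF] at e9
    exact e9
  -- Cauchy-Schwarz
  have h5 : (∑ s ∈ P, w s * G s) ^ 2 ≤ V ^ 10 * ∑ s ∈ P, w s * G s ^ 2 := by
    have e1 := sum_mul_sq_le_sq_mul_sq P (fun s => Real.sqrt (w s))
      (fun s => Real.sqrt (w s) * G s)
    have e2 : ∑ s ∈ P, Real.sqrt (w s) * (Real.sqrt (w s) * G s) = ∑ s ∈ P, w s * G s := by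
      refine sum_congr rfl fun s _ => ?_
      rw [← mul_assoc, Real.mul_self_sqrt (hw0 s)]
    have e3 : ∑ s ∈ P, Real.sqrt (w s) ^ 2 = V ^ 10 := by
      rw [← hsum]
      exact sum_congr rfl fun s _ => Real.sq_sqrt (hw0 s)
    have e4 : ∑ s ∈ P, (Real.sqrt (w s) * G s) ^ 2 = ∑ s ∈ P, w s * G s ^ 2 := by
      refine sum_congr rfl fun s _ => ?_
      rw [mul_pow, Real.sq_sqrt (hw0 s)]
    rw [e2, e3, e4] at e1
    exact e1
  have h6 : ∑ s ∈ P, w s * G s ^ 2 ≤ ((10 : ℕ) : ℝ) ^ 10 * ((1 + (10 : ℕ) * Real.log x) *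
      (((T ×ˢ T).filter (fun x => IsSquare (Y x.1 * Y x.2))).card : ℝ) +
      8 * ((N ^ 4 : ℕ) : ℝ) ^ 2 / (z : ℝ) ^ 10 * (T.card : ℝ) ^ 2) := by
    have e1 := hWL (ℕ × ℕ × ℕ × ℕ) T Y (N ^ 4) 10 z x U (by norm_num) (hN.trans hNz) hx hYb hU
    refine le_trans (le_of_eq ?_) e1
    rw [hP]
    refine sum_congr rfl fun s _ => ?_
    rw [hw, hG]
  -- the pairs
  have h7 : (((T ×ˢ T).filter (fun x => IsSquare (Y x.1 * Y x.2))).card : ℝ) ≤
      C2 * t ^ 8 * (N : ℝ) ^ (-(1 / 20) : ℝ) := by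
    have e1 := hE N J df (fun _ _ => 1) 1 hN hJ (Or.inl rfl) hNJ (by
      intro n _ n' _ _
      unfold df
      ring)
    rw [← ht] at e1
    refine le_trans ?_ e1
    have e2 : ((T ×ˢ T).filter (fun x => IsSquare (Y x.1 * Y x.2))).card ≤
        (MM J df (fun _ _ => 1)).card := by
      apply card_le_card
      intro u hu
      rw [mem_filter] at hu
      unfold MM
      rw [mem_filter, ← hT]
      refine ⟨hu.1, ?_, ?_⟩
      · rw [← hY]; exact hu.2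
      · exact ⟨1, by unfold cyc; norm_num⟩
    exact_mod_cast e2
  have h8 : 8 * ((N ^ 4 : ℕ) : ℝ) ^ 2 / (z : ℝ) ^ 10 * (T.card : ℝ) ^ 2 ≤
      8 * t ^ 8 * (N : ℝ) ^ (-(1 / 20) : ℝ) := by
    have hzr : (N : ℝ) ≤ z := by exact_mod_cast hNz
    have e1 : 8 * ((N ^ 4 : ℕ) : ℝ) ^ 2 / (z : ℝ) ^ 10 ≤ 8 * (N : ℝ) ^ (-(1 / 20) : ℝ) := by
      have e2 : (N : ℝ) ^ 10 ≤ (z : ℝ) ^ 10 := pow_le_pow_left₀ hN0.le hzr 10
      have e3 : 8 * ((N ^ 4 : ℕ) : ℝ) ^ 2 / (z : ℝ) ^ 10 ≤ 8 * (N : ℝ) ^ 8 / (N : ℝ) ^ 10 := by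
        push_cast
        rw [← pow_mul]
        apply div_le_div_of_nonneg_left (by positivity) (by positivity) e2
      have e4 : 8 * (N : ℝ) ^ 8 / (N : ℝ) ^ 10 = 8 * (N : ℝ) ^ (-2 : ℝ) := by
        rw [Real.rpow_neg hN0.le, Real.rpow_two]
        field_simp
      rw [e4] at e3
      refine e3.trans ?_
      apply mul_le_mul_of_nonneg_left _ (by norm_num)
      exact Real.rpow_le_rpow_of_exponent_le hNr (by norm_num)
    have e5 : (T.card : ℝ) ^ 2 ≤ t ^ 8 := by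
      calc (T.card : ℝ) ^ 2 ≤ (t ^ 4) ^ 2 := pow_le_pow_left₀ hTpos.le hTt 2
        _ = t ^ 8 := by ring
    calc 8 * ((N ^ 4 : ℕ) : ℝ) ^ 2 / (z : ℝ) ^ 10 * (T.card : ℝ) ^ 2
        ≤ (8 * (N : ℝ) ^ (-(1 / 20) : ℝ)) * t ^ 8 := by
          apply mul_le_mul e1 e5 (by positivity) (by positivity)
      _ = _ := by ring
  obtain ⟨M, hM⟩ : ∃ M : ℝ, M = (N : ℝ) ^ (-(1 / 20) : ℝ) := ⟨_, rfl⟩
  have hM0 : 0 < M := by rw [hM]; positivity
  rw [← hM] at h7 h8 ⊢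
  have h9 : ∑ s ∈ P, w s * G s ^ 2 ≤ 10 ^ 10 * (10 * C2 + 8) * (1 + Real.log x) * M * t ^ 8 := by
    refine h6.trans ?_
    push_cast
    have e1 : (1 + 10 * Real.log x) *
        (((T ×ˢ T).filter (fun x => IsSquare (Y x.1 * Y x.2))).card : ℝ) ≤
        (10 * (1 + Real.log x)) * (C2 * t ^ 8 * M) := by
      apply mul_le_mul (by linarith) h7 (by positivity) (by positivity)
    have e2 : 8 * t ^ 8 * M ≤ 8 * t ^ 8 * M * (1 + Real.log x) :=
      le_mul_of_one_le_right (by positivity) (by linarith)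
    push_cast at h8
    calc (10 : ℝ) ^ 10 * ((1 + 10 * Real.log x) *
        (((T ×ˢ T).filter (fun x => IsSquare (Y x.1 * Y x.2))).card : ℝ) +
        8 * ((N : ℝ) ^ 4) ^ 2 / (z : ℝ) ^ 10 * (T.card : ℝ) ^ 2)
        ≤ (10 : ℝ) ^ 10 * ((10 * (1 + Real.log x)) * (C2 * t ^ 8 * M) +
          8 * t ^ 8 * M * (1 + Real.log x)) := by
          apply mul_le_mul_of_nonneg_left _ (by norm_num)
          linarith
      _ = _ := by ring
  have h10 : ((β * V) ^ 10 * t ^ 4) ^ 2 ≤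
      V ^ 10 * (10 ^ 10 * (10 * C2 + 8) * (1 + Real.log x) * M * t ^ 8) := by
    calc ((β * V) ^ 10 * t ^ 4) ^ 2 ≤ (∑ s ∈ P, w s * G s) ^ 2 := by
          rw [h3]
          exact pow_le_pow_left₀ (by positivity) hpm 2
      _ ≤ V ^ 10 * ∑ s ∈ P, w s * G s ^ 2 := h5
      _ ≤ _ := mul_le_mul_of_nonneg_left h9 (by positivity)
  have h11 : V ^ 10 * t ^ 8 * (β ^ 20 * V ^ 10) ≤
      V ^ 10 * t ^ 8 * (10 ^ 10 * (10 * C2 + 8) * (1 + Real.log x) * M) := by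
    calc V ^ 10 * t ^ 8 * (β ^ 20 * V ^ 10) = ((β * V) ^ 10 * t ^ 4) ^ 2 := by ring
      _ ≤ _ := h10
      _ = _ := by ring
  have h12 := le_of_mul_le_mul_left h11 (by positivity)
  refine le_trans ?_ h12
  apply mul_le_mul_of_nonneg_left _ (by positivity)
  exact pow_le_pow_left₀ (by positivity) hUV 10

end Pool.Agent.Helper19.RD
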