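import Pool.Agent.Helper19.RD.All10
import Pool.Agent.Helper19.RD.MAIN12
import Pool.Agent.Helper19.RD.SPB
import Pool.Agent.Helper97.RD8.SQC
import Pool.Agent.Helper97.RD8.FS4
import Pool.Agent.Helper73.RD8.MAIN11

/-! Project RD, T4: assembly. -/

set_option autoImplicit false

namespace Pool.Agent.Helper19.RD

open Pool.Agent.Helper18.RD Pool.Agent.Helper97.RD8

theorem main11 : ST_MAIN11 :=
  Pool.Agent.Helper73.RD8.st_MAIN11 a1 st_PG
    (Pool.Agent.Helper97.RD8.st_FS4 Pool.Agent.Helper97.RD8.st_SQC)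
    (st_SPB rd8_wl1 rd8_end2) st_UNS main8 Pool.Agent.Helper97.RD8.st_PIU

theorem main12 : ST_MAIN12 :=
  st_MAIN12
    (st_ARW Pool.Agent.Helper58.RD.st_HALF st_UV (Pool.Agent.Helper26.RD.st_GR st_UV)
      (Pool.Agent.Helper61.RD.st_CHI st_SGN st_UV))
    (st_W Pool.Agent.Helper97.RD.st_TR) main11

end Pool.Agent.Helper19.RD
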