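import Pool.Agent.Helper18.RD6.All6
import Pool.Agent.Helper19.RD.A1
import Pool.Agent.Helper29.RD8.CDB
import Pool.Agent.Helper29.RD8.PG
import Pool.Agent.Helper3.RD8.DIC
import Pool.Agent.Helper30.RD8.NPB
import Pool.Agent.Helper30.RD8.PERW
import Pool.Agent.Helper34.RD8.WL1
import Pool.Agent.Helper39.RD8.MAIN8
import Pool.Agent.Helper41.RD8.SP2
import Pool.Agent.Helper83.RD8.VLB
import Pool.Agent.Helper45.RD6.EXC
import Pool.Agent.Helper47.RD8.EXT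
import Pool.Agent.Helper48.RD8.CLU
import Pool.Agent.Helper51.RD8.SP1
import Pool.Agent.Helper56.RD8.LOWG
import Pool.Agent.Helper73.RD8.GGS
import Pool.Agent.Helper77.RD8.NSQ
import Pool.Agent.Helper78.RD8.BL1
import Pool.Agent.Helper83.RD8.UNS
import Pool.Agent.Helper84.RD8.PAR
import Pool.Agent.Helper88.RD8.ARR
import Pool.Agent.Helper93.RD8.WE
import Pool.Agent.Helper96.RD8.WL2
import Pool.Agent.Helper97.RD8.CYB
import Pool.Agent.Helper97.RD8.OSF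

/-! Project RD, rd8: all rows together. -/

set_option autoImplicit false

namespace Pool.Agent.Helper19.RD

open Pool.Agent.Helper18.RD

theorem rd8_exc : ST_EXC := Pool.Agent.Helper45.RD6.st_EXC st_PER

theorem rd8_perw : ST_PERW := Pool.Agent.Helper30.RD8.st_PERW st_PER

theorem rd8_wl1 : ST_WL1 := st_WL1 rd8_perw Pool.Agent.Helper10.RD6.st_FI6

theorem rd8_wl2 : ST_WL2 := st_WL2 rd8_perw Pool.Agent.Helper10.RD6.st_FI6

theorem rd8_end2 : ST_END2 :=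
  st_END2 Pool.Agent.Helper64.RD.st_ENA Pool.Agent.Helper4.RD.st_ENB Pool.Agent.Helper54.RD.st_ENC

theorem rd8_npb : ST_NPB :=
  Pool.Agent.Helper30.RD8.st_NPB Pool.Agent.Helper18.RD6.arn
    (st_BADN Pool.Agent.Helper18.RD6.bdj) Pool.Agent.Helper18.RD6.st_GT6 Pool.Agent.Helper18.RD6.mlw6 rd8_end2
    (st_PL2 sv)

theorem rd8_dic : ST_DIC := st_DIC (Pool.Agent.Helper56.RD8.st_LOWG st_CS) rd8_wl2

theorem rd8_ggs : ST_GGS := Pool.Agent.Helper73.RD8.st_GGS rd8_dic rd8_end2 st_PAR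

theorem rd8_arr : ST_ARR :=
  Pool.Agent.Helper88.RD8.st_ARR Pool.Agent.Helper58.RD.st_HALF st_UV
    (Pool.Agent.Helper26.RD.st_GR st_UV) (Pool.Agent.Helper61.RD.st_CHI st_SGN st_UV)
    (Pool.Agent.Helper56.RD6.st_CHN st_UV)

theorem a1 : ST_A1 :=
  st_A1 rd8_arr (st_VLB rd8_npb st_PAR) Pool.Agent.Helper47.RD8.st_EXT
    Pool.Agent.Helper93.RD8.st_WE (Pool.Agent.Helper97.RD8.st_OSF rd8_exc) rd8_ggs
    st_CLU (Pool.Agent.Helper77.RD8.st_NSQ rd8_wl1) Pool.Agent.Helper97.RD8.st_CYB st_PAR st_CDB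

/-- `#S ≤ C N ^ ε (√N + (log q) ^ (1 / 4))` for all moduli -/
theorem main8 : ST_MAIN8 :=
  Pool.Agent.Helper39.RD8.st_MAIN8 a1 st_PG (Pool.Agent.Helper51.RD8.st_SP1 st_BL1)
    (Pool.Agent.Helper41.RD8.st_SP2 st_BL1) st_UNS main2

end Pool.Agent.Helper19.RD
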