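import Pool.Agent.Helper19.RD.Stmts8

/-! Project RD, eighth form (rd8): rows for the assembly A1. -/

set_option autoImplicit false

namespace Pool.Agent.Helper19.RD

open Finset Pool.Agent.Helper18.RD

/-- lower end of the primes -/
noncomputable def zN (N : ℕ) : ℕ := ⌈Real.exp (Real.sqrt (Real.log N) / 40)⌉₊

/-- upper end of the primes -/
noncomputable def xN (N : ℕ) : ℕ := ⌊(N : ℝ) ^ (1 / 10 : ℝ)⌋₊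

/-- number of factors -/
noncomputable def KN (N : ℕ) : ℕ := ⌈400 * Real.sqrt (Real.log N)⌉₊

/-- closeness -/
noncomputable def eN (N : ℕ) : ℝ := Real.exp (-(Real.sqrt (Real.log N) / 100000))

/-- the primes of `q` in the range -/
noncomputable def UN (N q : ℕ) : Finset ℕ := (OP q).filter (fun p => zN N < p ∧ p ≤ xN N)

/-- PAR: sizes of the parameters. -/
def ST_PAR : Prop := ∀ A κ τ : ℝ, 0 < A → 0 < κ → 0 < τ → ∃ N0 : ℕ, ∀ N : ℕ, N0 ≤ N →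
  1 ≤ N ∧ 1 ≤ KN N ∧ 2 ≤ zN N ∧ A ≤ xN N ∧ zN N ≤ xN N ∧
  40 * (Real.log (zN N)) ^ 2 ≤ Real.log (xN N) ∧ N ^ 10 ≤ zN N ^ KN N ∧
  (A * (1 + Real.log N) * KN N) ^ (100 * KN N) ≤ (N : ℝ) ^ τ ∧
  A * (1 + Real.log N) ^ κ * eN N ≤ 1 ∧ A * (1 + Real.log N) ^ κ ≤ (zN N : ℝ) ^ (1 / 4 : ℝ) ∧
  (N : ℝ) ^ (-(1 / 50) : ℝ) ≤ (eN N / 2) ^ (4 * KN N) ∧ (N : ℝ) ^ (1 / 11 : ℝ) ≤ xN N ∧
  (xN N : ℝ) ≤ (N : ℝ) ^ (1 / 10 : ℝ) ∧ A * (1 + Real.log N) ^ κ ≤ (N : ℝ) ^ τ ∧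
  24 * (KN N : ℝ) * eN N ≤ 1

/-- VLB: the primes in the range mostly divide `q` (from NPB, Chebyshev, PAR). -/
def ST_VLB : Prop := ∀ ε : ℝ, 0 < ε → ∃ (c : ℝ) (N0 : ℕ), 0 < c ∧ ∀ N q a : ℕ, N0 ≤ N → 1 ≤ q →
  Nat.Coprime q a → (N : ℝ) ^ (1 / 2 + ε) ≤ (SS N q a).card →
  c / (1 + Real.log N) ≤ VV (UN N q) ∧ VV (UN N q) ≤ 1 + Real.log N ∧
  ∑ p ∈ (Icc (zN N + 1) (xN N)).filter (fun p => p.Prime ∧ ¬ p ∣ q), (1 : ℝ) / p ≤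
    (zN N : ℝ) ^ (-(1 / 4) : ℝ)

/-- CYB: cycles of pairwise close points. -/
def ST_CYB : Prop := ∀ (N q : ℕ) (S J U : Finset ℕ) (e c d : ℕ → ℕ → ℤ) (k : ℤ) (w η : ℝ),
  Dat N q S e c d k w → J ⊆ S → U ⊆ OP q → (∀ i ∈ J, ∀ j ∈ J, Dl U e i j ≤ 2 * η * VV U) →
  ∀ t ∈ T4 J, ∑ p ∈ U.filter (fun p => jacobiSym (cyc d t) p ≠ 1), (1 : ℝ) / p ≤
    6 * η * VV U

/-- GGS: few pairs are neither close nor antipodal (from DIC, END2, PAR). -/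
def ST_GGS : Prop := ∀ c0 : ℝ, 0 < c0 → ∃ N0 : ℕ, ∀ (N q : ℕ) (J U : Finset ℕ)
  (e c d : ℕ → ℕ → ℤ) (k : ℤ) (w : ℝ), N0 ≤ N → Dat N q J e c d k w → N ≤ J.card ^ 2 →
  U ⊆ OP q → (∀ p ∈ U, zN N ≤ p ∧ p ≤ xN N) → c0 / (1 + Real.log N) ≤ VV U →
  4 * (GG J U e (eN N)).card ≤ J.card ^ 2

/-- OSF: nonsquares with mostly symbol `1` have a large odd squarefree part (from EXC). -/
def ST_OSF : Prop := ∃ (c : ℝ) (x0 : ℕ), 0 < c ∧ ∀ (Y : ℤ) (x z : ℕ), 1 ≤ Y → ¬ IsSquare Y →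
  x0 ≤ x → 2 ≤ z → 40 * (Real.log z) ^ 2 ≤ Real.log x →
  ∑ p ∈ (Icc (z + 1) x).filter (fun p => p.Prime ∧ jacobiSym Y p ≠ 1), (1 : ℝ) / p ≤
    c / Real.log x → (x : ℝ) ≤ 4 * (osf Y : ℝ) ^ 2

/-- CDB: size of the cofactors. -/
def ST_CDB : Prop := ∀ (N q a : ℕ) (S : Finset ℕ) (e c d : ℕ → ℕ → ℤ) (k : ℤ) (w : ℝ)
  (m : ℕ → ℤ), DatR N q a S e c d k w m → ∀ i ∈ S, ∀ j ∈ S, i ≠ j →
  1 ≤ d i j ∧ d i j ≤ 2 * N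

end Pool.Agent.Helper19.RD
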